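import Pool.Agent.Y546.WQ.Stm3

/-!
# Project WH, job BER: irregular indices divide Bernoulli numbers (Voronoi's congruence)
-/

set_option autoImplicit false

namespace Pool.Agent.Y61.WQ

open Pool.Agent.Y546.WQ Finset

section

variable (p : ℕ) [hp : Fact p.Prime]

/-- `p`-integrality of the first Bernoulli numbers -/
theorem bern_int (i : ℕ) (hi : i + 2 ≤ p) : padicNorm p (_root_.bernoulli i) ≤ 1 := by
  induction i using Nat.strong_induction_on with
  | _ i ih =>
    have h1 := sum_bernoulli (i + 1)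
    rw [Finset.sum_range_succ] at h1
    have h2 : (((i + 1 : ℕ) : ℚ)) * _root_.bernoulli i =
        (if i + 1 = 1 then 1 else 0) -
          ∑ k ∈ range i, ((i + 1).choose k : ℚ) * _root_.bernoulli k := by
      rw [← h1]
      have : (i + 1).choose i = i + 1 := by simp
      rw [this]; ring
    have h3 : padicNorm p ((if i + 1 = 1 then 1 else 0) -
          ∑ k ∈ range i, ((i + 1).choose k : ℚ) * _root_.bernoulli k) ≤ 1 := by
      refine padicNorm.sub.trans (max_le ?_ ?_)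
      · split_ifs
        · simp
        · simp
      · refine padicNorm.sum_le' (fun k hk => ?_) zero_le_one
        rw [padicNorm.mul]
        have hk' := Finset.mem_range.mp hk
        exact mul_le_one₀ (padicNorm.of_nat _) (padicNorm.nonneg _) (ih k hk' (by omega))
    rw [← h2, padicNorm.mul] at h3
    have h4 : padicNorm p ((i + 1 : ℕ) : ℚ) = 1 := by
      rw [padicNorm.nat_eq_one_iff]
      exact Nat.not_dvd_of_pos_of_lt (by omega) (by omega)
    rwa [h4, one_mul] at h3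

/-- from a sum of powers to the Bernoulli number -/
theorem bern_of_sum (k : ℕ) (h2 : 2 ≤ k) (hk : k + 3 ≤ p)
    (hS : (p : ℤ) ^ 2 ∣ ∑ t ∈ range p, (t : ℤ) ^ k) : (p : ℤ) ∣ (_root_.bernoulli k).num := by
  have hp0 : (0 : ℚ) < p := by exact_mod_cast hp.out.pos
  have hp1 : (1 : ℚ) < p := by exact_mod_cast hp.out.one_lt
  have hpn : padicNorm p (p : ℚ) = (p : ℚ)⁻¹ := padicNorm.padicNorm_p hp.out.one_lt
  have hk1 : padicNorm p ((k : ℚ) + 1) = 1 := by
    have : ((k : ℚ) + 1) = ((k + 1 : ℕ) : ℚ) := by push_cast; ring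
    rw [this, padicNorm.nat_eq_one_iff]
    exact Nat.not_dvd_of_pos_of_lt (by omega) (by omega)
  have hF := sum_range_pow p k
  rw [Finset.sum_range_succ] at hF
  have e1 : _root_.bernoulli k * ((k + 1).choose k : ℚ) * (p : ℚ) ^ (k + 1 - k) / ((k : ℚ) + 1) =
      _root_.bernoulli k * p := by
    have : (k + 1).choose k = k + 1 := by simp
    rw [this, Nat.add_sub_cancel_left, pow_one]
    have : ((k : ℚ) + 1) ≠ 0 := by positivity
    push_cast
    field_simp
  rw [e1] at hF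
  have h3 : padicNorm p (∑ t ∈ range p, (t : ℚ) ^ k) ≤ (p : ℚ) ^ (-(2 : ℕ) : ℤ) := by
    have := (padicNorm.dvd_iff_norm_le (p := p) (n := 2)
      (z := ∑ t ∈ range p, (t : ℤ) ^ k)).mp (by exact_mod_cast hS)
    exact_mod_cast this
  have h4 : padicNorm p (∑ i ∈ range k, _root_.bernoulli i * ((k + 1).choose i : ℚ) *
      (p : ℚ) ^ (k + 1 - i) / ((k : ℚ) + 1)) ≤ (p : ℚ) ^ (-(2 : ℕ) : ℤ) := by
    refine padicNorm.sum_le' (fun i hi => ?_) (by positivity)
    have hi' := Finset.mem_range.mp hi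
    rw [padicNorm.div, hk1, div_one, padicNorm.mul, padicNorm.mul]
    have e2 : padicNorm p ((p : ℚ) ^ (k + 1 - i)) ≤ (p : ℚ) ^ (-(2 : ℕ) : ℤ) := by
      have : (p : ℚ) ^ (k + 1 - i) = ((p ^ (k + 1 - i) : ℕ) : ℤ) := by push_cast; rfl
      rw [this, ← padicNorm.dvd_iff_norm_le]
      have : p ^ 2 ∣ p ^ (k + 1 - i) := pow_dvd_pow _ (by omega)
      exact_mod_cast this
    have e3 : padicNorm p (_root_.bernoulli i) * padicNorm p ((k + 1).choose i : ℚ) ≤ 1 :=
      mul_le_one₀ (bern_int p i (by omega)) (padicNorm.nonneg _) (padicNorm.of_nat _)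
    calc _ ≤ 1 * (p : ℚ) ^ (-(2 : ℕ) : ℤ) :=
          mul_le_mul e3 e2 (padicNorm.nonneg _) zero_le_one
      _ = _ := one_mul _
  have h5 : padicNorm p (_root_.bernoulli k * p) ≤ (p : ℚ) ^ (-(2 : ℕ) : ℤ) := by
    have e4 : _root_.bernoulli k * p = (∑ t ∈ range p, (t : ℚ) ^ k) -
      ∑ i ∈ range k, _root_.bernoulli i * ((k + 1).choose i : ℚ) *
      (p : ℚ) ^ (k + 1 - i) / ((k : ℚ) + 1) := by
      rw [hF]; ring
    rw [e4]
    exact padicNorm.sub.trans (max_le h3 h4)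
  rw [padicNorm.mul, hpn] at h5
  have h6 : padicNorm p (_root_.bernoulli k) ≤ (p : ℚ)⁻¹ := by
    have : (p : ℚ) ^ (-(2 : ℕ) : ℤ) = (p : ℚ)⁻¹ * (p : ℚ)⁻¹ := by
      rw [zpow_neg, zpow_natCast, pow_two, mul_inv]
    rw [this] at h5
    exact le_of_mul_le_mul_right h5 (by positivity)
  rw [← padicNorm.int_lt_one_iff]
  have e5 : (((_root_.bernoulli k).num : ℤ) : ℚ) =
      _root_.bernoulli k * ((_root_.bernoulli k).den : ℚ) := by
    rw [Rat.mul_den_eq_num]
  rw [e5, padicNorm.mul]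
  calc _ ≤ (p : ℚ)⁻¹ * 1 := mul_le_mul h6 (padicNorm.of_nat _) (padicNorm.nonneg _) (by positivity)
    _ < 1 := by rw [mul_one]; exact inv_lt_one_of_one_lt₀ hp1

/-- Voronoi's sums modulo `p` -/
noncomputable def VV (k a : ℕ) : ZMod p :=
  ∑ t : (ZMod p)ˣ, ((a * (t : ZMod p).val / p : ℕ) : ZMod p) * (t : ZMod p) ^ (k - 1)

theorem val_pos_of_unit (t : (ZMod p)ˣ) : 0 < (t : ZMod p).val := by
  rw [Nat.pos_iff_ne_zero]
  intro h
  rw [ZMod.val_eq_zero] at h
  exact t.ne_zero h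

theorem VV_one (k : ℕ) : VV p k 1 = 0 := by
  unfold VV
  refine Finset.sum_eq_zero fun t _ => ?_
  rw [one_mul, Nat.div_eq_of_lt (ZMod.val_lt _)]
  simp

theorem VV_succ (k a : ℕ) (h2 : 2 ≤ k) (hk : k + 3 ≤ p) (ha : 0 < a) (hap : a + 2 ≤ p) :
    VV p k (a + 1) = VV p k a + hsa p a (p - k) := by
  unfold VV hsa hf
  rw [Finset.sum_filter, ← Finset.sum_add_distrib]
  refine Finset.sum_congr rfl fun t _ => ?_
  have hpp := hp.out.pos
  have hv0 := val_pos_of_unit p t
  have hvp := ZMod.val_lt (t : ZMod p)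
  have hinv : ((t⁻¹ : (ZMod p)ˣ) : ZMod p) ^ (p - k) = (t : ZMod p) ^ (k - 1) := by
    have h1 : t ^ (p - 1) = 1 := ZMod.units_pow_card_sub_one_eq_one p t
    have h3 : (t⁻¹ : (ZMod p)ˣ) ^ (p - k) = t ^ (k - 1) := by
      rw [inv_pow, inv_eq_iff_mul_eq_one, ← pow_add]
      have : p - k + (k - 1) = p - 1 := by omega
      rw [this, h1]
    rw [← Units.val_pow_eq_pow_val, h3, Units.val_pow_eq_pow_val]
  rw [hinv]
  set v := (t : ZMod p).val with hv
  have hval : ((a : ZMod p) * (t : ZMod p)).val = (a * v) % p := by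
    rw [ZMod.val_mul, ZMod.val_natCast, ← hv, Nat.mod_mul_mod]
  rw [hval]
  have hne : v + (a * v) % p ≠ p := by
    intro h
    have h4 : p ∣ (a + 1) * v := by
      have h5 : (a + 1) * v = p * (a * v / p) + (v + (a * v) % p) := by
        have := Nat.div_add_mod (a * v) p
        nlinarith
      rw [h5, h]
      exact ⟨a * v / p + 1, by ring⟩
    rcases (Nat.Prime.dvd_mul hp.out).mp h4 with h6 | h6
    · exact absurd (Nat.le_of_dvd (by omega) h6) (by omega)
    · exact absurd (Nat.le_of_dvd (by omega) h6) (by omega)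
  have hmod := Nat.mod_lt (a * v) hpp
  have hdm := Nat.div_add_mod (a * v) p
  split_ifs with hc
  · have h7 : (a + 1) * v / p = a * v / p + 1 := by
      apply Nat.div_eq_of_lt_le
      · nlinarith
      · nlinarith
    rw [h7]; push_cast; ring
  · have h7 : (a + 1) * v / p = a * v / p := by
      apply Nat.div_eq_of_lt_le
      · nlinarith
      · have : v + (a * v) % p < p := by omega
        nlinarith
    rw [h7]; ring

theorem VV_zero (k : ℕ) (h2 : 2 ≤ k) (hk : k + 3 ≤ p) (hR : ¬ Reg p (p - k)) (a : ℕ)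
    (ha : 0 < a) (hap : a + 1 ≤ p) : VV p k a = 0 := by
  induction a with
  | zero => omega
  | succ a ih =>
    rcases Nat.eq_zero_or_pos a with h0 | h0
    · subst h0
      exact VV_one p k
    · rw [VV_succ p k a h2 hk h0 (by omega), ih h0 (by omega), zero_add]
      by_contra h
      exact hR ⟨a, h0, by omega, h⟩

/-- Voronoi's congruence -/
theorem voronoi (k : ℕ) (h2 : 2 ≤ k) (a : ℕ) (ha : 0 < a) (hap : a < p) (hV : VV p k a = 0) :
    (p : ℤ) ^ 2 ∣ ((a : ℤ) ^ k - 1) * ∑ t : (ZMod p)ˣ, ((t : ZMod p).val : ℤ) ^ k := by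
  have hpp := hp.out.pos
  have hau : IsUnit (a : ZMod p) := by
    rw [isUnit_iff_ne_zero]
    intro h
    rw [ZMod.natCast_eq_zero_iff] at h
    exact absurd (Nat.le_of_dvd ha h) (by omega)
  obtain ⟨u, hu⟩ := hau
  -- one residue
  have key : ∀ t : (ZMod p)ˣ, (p : ℤ) ^ 2 ∣
      ((a : ℤ) ^ k * ((t : ZMod p).val : ℤ) ^ k - (((u * t : (ZMod p)ˣ) : ZMod p).val : ℤ) ^ k)
        - (k : ℤ) * p * ((a : ℤ) ^ (k - 1) *
          (((a * (t : ZMod p).val / p : ℕ) : ℤ) * ((t : ZMod p).val : ℤ) ^ (k - 1))) := by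
    intro t
    set v := (t : ZMod p).val with hv
    have hval : ((u * t : (ZMod p)ˣ) : ZMod p).val = (a * v) % p := by
      rw [Units.val_mul, hu, ZMod.val_mul, ZMod.val_natCast, ← hv, Nat.mod_mul_mod]
    rw [hval]
    have hdm : (p : ℤ) * ((a * v / p : ℕ) : ℤ) + (((a * v) % p : ℕ) : ℤ) = (a : ℤ) * (v : ℤ) := by
      exact_mod_cast Nat.div_add_mod (a * v) p
    set q : ℤ := ((a * v / p : ℕ) : ℤ)
    set r : ℤ := (((a * v) % p : ℕ) : ℤ)
    have h1 : (a : ℤ) ^ k * (v : ℤ) ^ k = (r + p * q) ^ k := by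
      rw [← mul_pow, ← hdm]; ring
    have h3 : (a : ℤ) ^ (k - 1) * (q * (v : ℤ) ^ (k - 1)) = q * (r + p * q) ^ (k - 1) := by
      have : (a : ℤ) ^ (k - 1) * (q * (v : ℤ) ^ (k - 1)) = q * ((a : ℤ) * v) ^ (k - 1) := by
        rw [mul_pow]; ring
      rw [this, ← hdm]; ring
    rw [h1, h3]
    obtain ⟨c, hc⟩ := Polynomial.powAddExpansion r ((p : ℤ) * q) k
    obtain ⟨d, hd⟩ := sub_dvd_pow_sub_pow (r + p * q) r (k - 1)
    have hd' : (r + p * q) ^ (k - 1) = r ^ (k - 1) + (p * q) * d := by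
      have : (r + p * q) - r = p * q := by ring
      rw [this] at hd
      linarith
    rw [hc, hd']
    exact ⟨c * q ^ 2 - k * q * q * d, by ring⟩
  have hsum := Finset.dvd_sum (fun t (_ : t ∈ (Finset.univ : Finset (ZMod p)ˣ)) => key t)
  rw [Finset.sum_sub_distrib, Finset.sum_sub_distrib, ← Finset.mul_sum, ← Finset.mul_sum,
    ← Finset.mul_sum] at hsum
  have hbij : ∑ t : (ZMod p)ˣ, (((u * t : (ZMod p)ˣ) : ZMod p).val : ℤ) ^ k =
      ∑ t : (ZMod p)ˣ, ((t : ZMod p).val : ℤ) ^ k :=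
    Fintype.sum_equiv (Equiv.mulLeft u) _ _ (fun t => rfl)
  rw [hbij] at hsum
  have hV' : (p : ℤ) ∣ ∑ t : (ZMod p)ˣ,
      ((a * (t : ZMod p).val / p : ℕ) : ℤ) * ((t : ZMod p).val : ℤ) ^ (k - 1) := by
    rw [← ZMod.intCast_zmod_eq_zero_iff_dvd]
    rw [← hV]
    unfold VV
    rw [Int.cast_sum]
    refine Finset.sum_congr rfl fun t _ => ?_
    rw [Int.cast_mul, Int.cast_pow, Int.cast_natCast, Int.cast_natCast, ZMod.natCast_zmod_val]
  obtain ⟨w, hw⟩ := hV'
  rw [hw] at hsum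
  have e : ((a : ℤ) ^ k - 1) * ∑ t : (ZMod p)ˣ, ((t : ZMod p).val : ℤ) ^ k =
      (((a : ℤ) ^ k * ∑ t : (ZMod p)ˣ, ((t : ZMod p).val : ℤ) ^ k -
        ∑ t : (ZMod p)ˣ, ((t : ZMod p).val : ℤ) ^ k) -
        (k : ℤ) * p * ((a : ℤ) ^ (k - 1) * (p * w))) +
        (p : ℤ) ^ 2 * ((k : ℤ) * ((a : ℤ) ^ (k - 1) * w)) := by ring
  rw [e]
  exact dvd_add hsum (dvd_mul_right _ _)

theorem sum_units (k : ℕ) (h2 : 2 ≤ k) :
    ∑ t : (ZMod p)ˣ, ((t : ZMod p).val : ℤ) ^ k = ∑ t ∈ range p, (t : ℤ) ^ k := by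
  have hpp := hp.out.pos
  have h1 : ∑ t ∈ range p, (t : ℤ) ^ k = ∑ t ∈ (range p).filter (fun t => t ≠ 0), (t : ℤ) ^ k := by
    rw [Finset.sum_filter]
    refine Finset.sum_congr rfl fun t _ => ?_
    split_ifs with h
    · rfl
    · push Not at h
      subst h
      simp; omega
  rw [h1]
  refine Finset.sum_bij (fun t _ => (t : ZMod p).val) ?_ ?_ ?_ ?_
  · intro t _
    rw [Finset.mem_filter, Finset.mem_range]
    exact ⟨ZMod.val_lt _, (val_pos_of_unit p t).ne'⟩
  · intro s _ t _ h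
    exact Units.ext (ZMod.val_injective p h)
  · intro b hb
    rw [Finset.mem_filter, Finset.mem_range] at hb
    have hbu : IsUnit (b : ZMod p) := by
      rw [isUnit_iff_ne_zero]
      intro h
      rw [ZMod.natCast_eq_zero_iff] at h
      exact absurd (Nat.le_of_dvd (by omega) h) (by omega)
    obtain ⟨u, hu⟩ := hbu
    refine ⟨u, Finset.mem_univ _, ?_⟩
    rw [hu, ZMod.val_natCast, Nat.mod_eq_of_lt hb.1]
  · intro t _
    rfl

end

/-- BER: irregular indices and Bernoulli numbers -/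
theorem mainBER : S_BER := by
  intro p hp k _hev h2 hk hR
  have hpp := hp.out.pos
  apply bern_of_sum p k h2 hk
  rw [← sum_units p k h2]
  obtain ⟨g, hg⟩ := IsCyclic.exists_generator (α := (ZMod p)ˣ)
  have hord : orderOf g = p - 1 := by
    rw [orderOf_eq_card_of_forall_mem_zpowers hg, Nat.card_eq_fintype_card, ZMod.card_units]
  have hgk : g ^ k ≠ 1 := by
    intro h
    have := orderOf_dvd_of_pow_eq_one h
    rw [hord] at this
    exact absurd (Nat.le_of_dvd (by omega) this) (by omega)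
  set a := (g : ZMod p).val with ha
  have ha0 : 0 < a := val_pos_of_unit p g
  have hap : a < p := ZMod.val_lt _
  have hv := voronoi p k h2 a ha0 hap (VV_zero p k h2 hk hR a ha0 hap)
  have hcop : IsCoprime ((p : ℤ) ^ 2) ((a : ℤ) ^ k - 1) := by
    apply IsCoprime.pow_left
    rw [Prime.coprime_iff_not_dvd (Nat.prime_iff_prime_int.mp hp.out)]
    intro h
    apply hgk
    rw [← ZMod.intCast_zmod_eq_zero_iff_dvd] at h
    rw [Int.cast_sub, Int.cast_pow, Int.cast_natCast, Int.cast_one, sub_eq_zero, ha,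
      ZMod.natCast_zmod_val] at h
    exact Units.ext (by rw [Units.val_pow_eq_pow_val, h, Units.val_one])
  exact hcop.dvd_of_dvd_mul_left hv

end Pool.Agent.Y61.WQ
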